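import Pool.Agent.H987.Z.StD

/-! The free Green function in dimension one. -/

set_option autoImplicit false

open scoped BigOperators InnerProductSpace Topology
open Filter MeasureTheory

namespace Pool.Agent.H734.Z987

open Pool.Agent.H987.Z
open Pool.Agent.Y662.TR (LL Cf Mw dv hu ll_summable dv_apply sub_coord smul_coord)
open Pool.Agent.TH369.AN (Rz rz_eq)

/-! ### the recursion on the integers -/

theorem rec_right (w : ℂ) (u : ℕ → ℂ) (h : ∀ n, u (n + 2) = w * u (n + 1) - u n)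
    (h0 : Tendsto u atTop (𝓝 0)) : u 1 ^ 2 + u 0 ^ 2 - w * u 0 * u 1 = 0 := by
  have h1 : ∀ n, u (n + 1) ^ 2 + u n ^ 2 - w * u n * u (n + 1) =
      u 1 ^ 2 + u 0 ^ 2 - w * u 0 * u 1 := by
    intro n
    induction n with
    | zero => rfl
    | succ n ih =>
      rw [← ih, show n + 1 + 1 = n + 2 from rfl, h n]
      ring
  have h2 : Tendsto (fun n => u (n + 1)) atTop (𝓝 0) := (tendsto_add_atTop_iff_nat 1).2 h0
  have h3 : Tendsto (fun n => u (n + 1) ^ 2 + u n ^ 2 - w * u n * u (n + 1)) atTop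
      (𝓝 ((0:ℂ) ^ 2 + 0 ^ 2 - w * 0 * 0)) :=
    ((h2.pow 2).add (h0.pow 2)).sub ((h0.const_mul w).mul h2)
  simp only [h1] at h3
  have h4 := tendsto_nhds_unique h3 tendsto_const_nhds
  simpa using h4.symm

theorem rec_both (w : ℂ) (u : ℤ → ℂ)
    (h : ∀ n, w * u n - u (n + 1) - u (n - 1) = if n = 0 then 1 else 0)
    (hp : Tendsto (fun n : ℕ => u n) atTop (𝓝 0))
    (hm : Tendsto (fun n : ℕ => u (-(n : ℤ))) atTop (𝓝 0)) : u 0 ^ 2 * (w ^ 2 - 4) = 1 := by
  have h1 := rec_right w (fun n : ℕ => u n) (fun n => by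
    have h2 := h (n + 1)
    rw [if_neg (by omega)] at h2
    have e1 : ((n : ℤ) + 1 + 1) = ((n + 2 : ℕ) : ℤ) := by push_cast; ring
    have e2 : ((n : ℤ) + 1 - 1) = n := by ring
    have e3 : ((n : ℤ) + 1) = ((n + 1 : ℕ) : ℤ) := by push_cast; ring
    rw [e1, e2, e3] at h2
    linear_combination -h2) hp
  have h2 := rec_right w (fun n : ℕ => u (-(n : ℤ))) (fun n => by
    have h2 := h (-(n + 1))
    rw [if_neg (by omega)] at h2
    have e1 : (-((n : ℤ) + 1) + 1) = -(n : ℤ) := by ring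
    have e2 : (-((n : ℤ) + 1) - 1) = -((n + 2 : ℕ) : ℤ) := by push_cast; ring
    have e3 : (-((n : ℤ) + 1)) = -((n + 1 : ℕ) : ℤ) := by push_cast; ring
    rw [e1, e2, e3] at h2
    linear_combination -h2) hm
  have h3 := h 0
  simp only [zero_add, zero_sub, if_true] at h3
  simp only [Nat.cast_one, Nat.cast_zero, neg_zero] at h1 h2
  have h4 : u 1 = u (-1) := by
    linear_combination h2 - h1 + (u (-1) - u 1) * h3
  rw [← h4] at h3
  linear_combination -4 * h1 + (w * u 0 - 2 * u 1 + 1) * h3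

/-! ### the operator -/

/-- the one-dimensional lattice -/
abbrev HH : Type := Multiplicative (Fin 1 → ℤ)

/-- the points of the lattice -/
def em (n : ℤ) : HH := Multiplicative.ofAdd (fun _ => n)

theorem em_inj : Function.Injective em := by
  intro n m h
  have h1 : (fun _ : Fin 1 => n) = fun _ => m := Multiplicative.ofAdd.injective h
  exact congrFun h1 0

theorem em_zero : em 0 = 1 := rfl

theorem em_add (n m : ℤ) : em n * em m = em (n + m) := rfl

theorem em_single (k : ℤ) (i : Fin 1) : Multiplicative.ofAdd (Pi.single i k : Fin 1 → ℤ) = em k := by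
  unfold em
  congr 1
  funext j
  rw [Subsingleton.elim j i, Pi.single_eq_same]

/-- the weights of `-Δ` in dimension one -/
noncomputable abbrev bb : HH → ℝ := b0 (MonoidHom.id HH)

open Classical in
theorem bb_eq (x : HH) : bb x = 2 * (if x = 1 then 1 else 0) - (if x = em 1 then 1 else 0) -
    (if x = em (-1) then 1 else 0) := by
  unfold bb b0
  simp only [Fin.sum_univ_one, MonoidHom.id_apply, em_single]
  push_cast
  ring_nf

theorem bb_sy : Sy bb := by
  classical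
  constructor
  · refine summable_of_hasFiniteSupport ?_
    refine Set.Finite.subset (s := {1, em 1, em (-1)}) (by simp) ?_
    intro x hx
    by_contra h
    simp only [Set.mem_insert_iff, Set.mem_singleton_iff, not_or] at h
    apply hx
    show |bb x| = 0
    rw [bb_eq, if_neg h.1, if_neg h.2.1, if_neg h.2.2]
    simp
  · intro x
    rw [bb_eq, bb_eq]
    have h1 : x⁻¹ = 1 ↔ x = 1 := inv_eq_one
    have e1 : (em (-1))⁻¹ = em 1 := rfl
    have e2 : (em 1)⁻¹ = em (-1) := rfl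
    have h2 : x⁻¹ = em 1 ↔ x = em (-1) := by
      rw [inv_eq_iff_eq_inv, e2]
    have h3 : x⁻¹ = em (-1) ↔ x = em 1 := by
      rw [inv_eq_iff_eq_inv, e1]
    simp only [h1, h2, h3]
    ring

theorem ra_mul : RA (fun s : HH => Equiv.mulRight s) where
  one x := mul_one x
  mul s t x := (mul_assoc x s t).symm

theorem kt_apply (hc : S_conv) (u : LL HH) (x : HH) :
    KT bb u x = 2 * u x - u (x * em 1) - u (x * em (-1)) := by
  classical
  have h1 := ((hc HH HH _ ra_mul bb bb bb_sy bb_sy).1 u x).2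
  refine Eq.trans h1 ?_
  have h2 : ∀ (a : HH), HasSum (fun s : HH => if s = a then u (x * a) else 0) (u (x * a)) :=
    fun a => hasSum_ite_eq a _
  have h3 := (((h2 1).mul_left 2).sub (h2 (em 1))).sub (h2 (em (-1)))
  have h4 : ∀ (s a : HH), (((if s = a then 1 else 0 : ℝ)) : ℂ) * u (x * s) =
      if s = a then u (x * a) else 0 := by
    intro s a
    by_cases h : s = a
    · subst h
      simp
    · rw [if_neg h, if_neg h]
      simp
  have h5 : (fun s : HH => ((bb s : ℝ) : ℂ) * u (x * s)) = fun s =>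
      2 * (if s = 1 then u (x * 1) else 0) - (if s = em 1 then u (x * em 1) else 0) -
        (if s = em (-1) then u (x * em (-1)) else 0) := by
    funext s
    rw [bb_eq, ← h4 s 1, ← h4 s (em 1), ← h4 s (em (-1)), Complex.ofReal_sub, Complex.ofReal_sub,
      Complex.ofReal_mul]
    push_cast
    ring
  show ∑' s : HH, ((bb s : ℝ) : ℂ) * u (x * s) = _
  rw [h5, h3.tsum_eq, mul_one]

/-! ### the square of the Green function -/

theorem u_tendsto (u : LL HH) (f : ℕ → HH) (hf : Function.Injective f) :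
    Tendsto (fun n => u (f n)) atTop (𝓝 0) := by
  have h1 : Summable fun n => ‖u (f n)‖ ^ 2 := (ll_summable u).comp_injective hf
  have h2 := h1.tendsto_atTop_zero
  rw [tendsto_zero_iff_norm_tendsto_zero]
  have h3 := (Real.continuous_sqrt.tendsto 0).comp h2
  rw [Real.sqrt_zero] at h3
  refine h3.congr fun n => ?_
  exact Real.sqrt_sq (norm_nonneg _)

theorem gz_sq (hc : S_conv) {z : ℂ} (hz : 0 < z.im) : gZ 1 z ^ 2 * (z * (z - 4)) = 1 := by
  classical
  have hsa : IsSelfAdjoint (KT bb) := (hc HH HH _ ra_mul bb bb bb_sy bb_sy).2.2.1.sa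
  obtain ⟨u, hu⟩ : ∃ u : LL HH, u = Rz (KT bb) z (dv 1) := ⟨_, rfl⟩
  have h1 := rz_eq (KT bb) hsa z hz.ne' (dv 1)
  rw [← hu] at h1
  have h2 : ∀ n : ℤ, (2 - z) * u (em n) - u (em (n + 1)) - u (em (n - 1)) =
      if n = 0 then 1 else 0 := by
    intro n
    have h3 := congrArg (fun v : LL HH => v (em n)) h1
    simp only [sub_coord, smul_coord, dv_apply] at h3
    rw [kt_apply hc, em_add, em_add] at h3
    have h4 : (em n = 1) ↔ n = 0 := by
      rw [← em_zero]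
      exact em_inj.eq_iff
    simp only [h4] at h3
    rw [← h3, sub_eq_add_neg n 1]
    ring
  have h3 := rec_both (2 - z) (fun n => u (em n)) h2
    (u_tendsto u (fun n : ℕ => em n) (em_inj.comp Nat.cast_injective))
    (u_tendsto u (fun n : ℕ => em (-(n : ℤ)))
      (em_inj.comp (neg_injective.comp Nat.cast_injective)))
  have h4 : gZ 1 z = u (em 0) := by
    rw [hu]
    rfl
  rw [h4]
  simp only at h3
  linear_combination h3

theorem gz_pos (hc : S_conv) (hg : S_green) {z : ℂ} (hz : 0 < z.im) : 0 < (gZ 1 z).im := by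
  have hrs : Rs (KT bb) := (hc HH HH _ ra_mul bb bb bb_sy bb_sy).2.2.1
  have h1 := (hg HH (KT bb) hrs).2.2.2.1 z 1 (‖KT bb‖) hz le_rfl
  have h2 : 0 < ‖z‖ := hz.trans_le (Complex.im_le_norm z)
  have h3 : 0 < z.im / (‖KT bb‖ + ‖z‖) ^ 2 := by
    have := norm_nonneg (KT bb)
    positivity
  exact h3.trans_le h1

theorem norm_bd {z : ℂ} {κ : ℝ} (_hκ1 : κ ≤ 1) (hκ : 0 < κ) (h1 : κ ≤ z.re) (h2 : z.re ≤ 4 - κ)
    (h3 : 0 < z.im) (h4 : z.im ≤ 2) : κ ≤ ‖z‖ ∧ ‖z‖ ≤ 6 ∧ κ ≤ ‖z - 4‖ ∧ ‖z - 4‖ ≤ 6 := by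
  have e1 : (z - 4).re = z.re - 4 := by simp
  have e2 : (z - 4).im = z.im := by simp
  refine ⟨h1.trans (Complex.re_le_norm z), ?_, ?_, ?_⟩
  · refine (Complex.norm_le_abs_re_add_abs_im z).trans ?_
    rw [abs_of_nonneg (by linarith), abs_of_nonneg h3.le]
    linarith
  · refine le_trans ?_ (Complex.abs_re_le_norm (z - 4))
    rw [e1, abs_of_nonpos (by linarith)]
    linarith
  · refine (Complex.norm_le_abs_re_add_abs_im (z - 4)).trans ?_
    rw [e1, e2, abs_of_nonpos (by linarith), abs_of_nonneg h3.le]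
    linarith

theorem free1 (hc : S_conv) (hg : S_green) : Pool.Agent.H987.Z.S_free1 := by
  intro κ hκ hκ1
  have up : ∀ z : ℂ, κ ≤ z.re → z.re ≤ 4 - κ → 0 < z.im → z.im ≤ 2 → ‖gZ 1 z‖ ≤ 1 / κ := by
    intro z h1 h2 h3 h4
    obtain ⟨b1, b2, b3, b4⟩ := norm_bd hκ1 hκ h1 h2 h3 h4
    have h5 := congrArg norm (gz_sq hc h3)
    rw [norm_mul, norm_pow, norm_mul, norm_one] at h5
    rw [le_div_iff₀ hκ]
    have h6 : (‖gZ 1 z‖ * κ) ^ 2 ≤ 1 ^ 2 := by
      have h7 : κ * κ ≤ ‖z‖ * ‖z - 4‖ := mul_le_mul b1 b3 hκ.le (norm_nonneg _)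
      have h8 : ‖gZ 1 z‖ ^ 2 * (κ * κ) ≤ ‖gZ 1 z‖ ^ 2 * (‖z‖ * ‖z - 4‖) :=
        mul_le_mul_of_nonneg_left h7 (by positivity)
      nlinarith
    exact (pow_le_pow_iff_left₀ (by positivity) zero_le_one two_ne_zero).1 h6
  have lo : ∀ z : ℂ, κ ≤ z.re → z.re ≤ 4 - κ → 0 < z.im → z.im ≤ 2 → κ / 21 ≤ (gZ 1 z).im := by
    intro z h1 h2 h3 h4
    obtain ⟨b1, b2, b3, b4⟩ := norm_bd hκ1 hκ h1 h2 h3 h4
    have h5 := gz_sq hc h3
    obtain ⟨q, hq⟩ : ∃ q : ℂ, q = z * (z - 4) := ⟨_, rfl⟩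
    rw [← hq] at h5
    have hq0 : q ≠ 0 := by
      intro h
      rw [h, mul_zero] at h5
      exact zero_ne_one h5
    have hqre : q.re = -(z.re * (4 - z.re) + z.im ^ 2) := by
      rw [hq]
      simp [Complex.mul_re]
      ring
    have h6 : gZ 1 z ^ 2 = q⁻¹ := eq_inv_of_mul_eq_one_left h5
    have h7 : (gZ 1 z ^ 2).re = q.re / Complex.normSq q := by
      rw [h6, Complex.inv_re]
    have h8 : (gZ 1 z ^ 2).re = (gZ 1 z).re ^ 2 - (gZ 1 z).im ^ 2 := by
      rw [pow_two, Complex.mul_re]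
      ring
    have h9 : Complex.normSq q ≤ 36 ^ 2 := by
      rw [Complex.normSq_eq_norm_sq, hq, norm_mul]
      have : ‖z‖ * ‖z - 4‖ ≤ 6 * 6 := mul_le_mul b2 b4 (norm_nonneg _) (by norm_num)
      have h0 : 0 ≤ ‖z‖ * ‖z - 4‖ := by positivity
      nlinarith
    have h10 : 0 < Complex.normSq q := Complex.normSq_pos.2 hq0
    have h11 : 3 * κ ≤ z.re * (4 - z.re) := by nlinarith
    have h12 : 3 * κ / 36 ^ 2 ≤ (gZ 1 z).im ^ 2 := by
      have h13 : 3 * κ / 36 ^ 2 ≤ -q.re / Complex.normSq q := by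
        rw [hqre, neg_neg]
        have h14 : 3 * κ ≤ z.re * (4 - z.re) + z.im ^ 2 := by nlinarith [sq_nonneg z.im]
        exact div_le_div₀ (by nlinarith [sq_nonneg z.im]) h14 h10 h9
      have h15 : -q.re / Complex.normSq q = (gZ 1 z).im ^ 2 - (gZ 1 z).re ^ 2 := by
        rw [neg_div, ← h7, h8]
        ring
      rw [h15] at h13
      nlinarith [sq_nonneg (gZ 1 z).re]
    have h16 := gz_pos hc hg h3
    refine (pow_le_pow_iff_left₀ (by positivity) h16.le two_ne_zero).1 (le_trans ?_ h12)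
    nlinarith
  refine ⟨κ / 21, 1 / κ, by positivity, lo, up, ?_⟩
  intro δ hδ
  refine ⟨δ * κ ^ 4 * (2 * (κ / 21)) / 16, by positivity, ?_⟩
  intro z z' a1 a2 a3 a4 a1' a2' a3' a4' hzz
  obtain ⟨b1, b2, b3, b4⟩ := norm_bd hκ1 hκ a1 a2 a3 a4
  obtain ⟨b1', b2', b3', b4'⟩ := norm_bd hκ1 hκ a1' a2' a3' a4'
  have g1 := gz_sq hc a3
  have g2 := gz_sq hc a3'
  have l1 := lo z a1 a2 a3 a4
  have l2 := lo z' a1' a2' a3' a4'
  have u1 := up z a1 a2 a3 a4
  have u2 := up z' a1' a2' a3' a4'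
  generalize gZ 1 z = g at *
  generalize gZ 1 z' = g' at *
  have e1 : (g - g') * (g + g') = g ^ 2 * g' ^ 2 * ((z' - z) * (z' + z - 4)) := by
    linear_combination g' ^ 2 * g1 - g ^ 2 * g2
  have e2 := congrArg norm e1
  rw [norm_mul, norm_mul, norm_mul, norm_mul, norm_pow, norm_pow] at e2
  have h1 : 2 * (κ / 21) ≤ ‖g + g'‖ := by
    refine le_trans ?_ (Complex.im_le_norm (g + g'))
    rw [Complex.add_im]
    linarith
  have h2 : ‖z' + z - 4‖ ≤ 16 := by
    have h3 : z' + z - 4 = z' + (z - 4) := by ring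
    rw [h3]
    exact (norm_add_le _ _).trans (by linarith)
  have h3 : ‖z' - z‖ ≤ δ * κ ^ 4 * (2 * (κ / 21)) / 16 := by
    rw [norm_sub_rev]
    exact hzz
  have h4 : ‖g‖ ^ 2 * ‖g'‖ ^ 2 ≤ (1 / κ) ^ 2 * (1 / κ) ^ 2 := by
    gcongr
  have h5 : ‖g - g'‖ * (2 * (κ / 21)) ≤ δ * (2 * (κ / 21)) := by
    calc ‖g - g'‖ * (2 * (κ / 21)) ≤ ‖g - g'‖ * ‖g + g'‖ :=
          mul_le_mul_of_nonneg_left h1 (norm_nonneg _)
      _ = ‖g‖ ^ 2 * ‖g'‖ ^ 2 * (‖z' - z‖ * ‖z' + z - 4‖) := e2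
      _ ≤ ((1 / κ) ^ 2 * (1 / κ) ^ 2) * ((δ * κ ^ 4 * (2 * (κ / 21)) / 16) * 16) := by
          gcongr
      _ = δ * (2 * (κ / 21)) := by
          field_simp
  exact le_of_mul_le_mul_right h5 (by positivity)

end Pool.Agent.H734.Z987
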